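import Pool.Agent.H90.HW.Stmts

/-!
The number of solutions of a linear system.
-/

namespace Pool.Agent.H90.HW

open Module Pool.Agent.H73.Zeta

theorem ker : SKer := by
  classical
  intro K _ _ a b M
  have h1 : cnt (fun z : Fin b → K => M.mulVec z = 0) =
      (Nat.card (LinearMap.ker M.mulVecLin) : ℤ) := rfl
  have h2 : Nat.card (LinearMap.ker M.mulVecLin) =
      Nat.card K ^ finrank K (LinearMap.ker M.mulVecLin) :=
    Module.natCard_eq_pow_finrank
  have h3 := LinearMap.finrank_range_add_finrank_ker M.mulVecLin
  have h4 : finrank K (LinearMap.range M.mulVecLin) = M.rank := rfl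
  rw [h4, finrank_fin_fun] at h3
  rw [h1, h2]
  push_cast
  rw [← pow_add, h3]

end Pool.Agent.H90.HW
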