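import Pool.Agent.H90.HW.Stmts

/-!
Rank and minors.
-/

namespace Pool.Agent.H90.HW

open Module

/-- A matrix of rank at least `s` has `s` linearly independent rows. -/
theorem Minor.rows {K : Type} [Field K] {a b : Type} [Fintype a] [Fintype b]
    (M : Matrix a b K) (s : ℕ) (h : s ≤ M.rank) :
    ∃ f : Fin s → a, LinearIndependent K (M.submatrix f id).row := by
  classical
  obtain ⟨κ, t, ht, hspan, hli⟩ := exists_linearIndependent' K M.row
  have : Finite κ := Finite.of_injective t ht
  have := Fintype.ofFinite κ
  have hc : Fintype.card κ = M.rank := by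
    rw [Matrix.rank_eq_finrank_span_row, ← hspan, finrank_span_eq_card hli]
  have hs : Fintype.card (Fin s) ≤ Fintype.card κ := by
    rw [Fintype.card_fin, hc]
    exact h
  obtain ⟨g⟩ := Function.Embedding.nonempty_of_card_le hs
  exact ⟨fun i => t (g i), hli.comp g g.injective⟩

theorem minor : SMinor := by
  classical
  intro K _ a b r M
  constructor
  · intro h f g
    by_contra hne
    have h1 : IsUnit (M.submatrix f g) := by
      rw [Matrix.isUnit_iff_isUnit_det]
      exact isUnit_iff_ne_zero.2 hne
    have h2 := Matrix.rank_of_isUnit _ h1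
    have h3 := Matrix.rank_submatrix_le M f g
    rw [h2, Fintype.card_fin] at h3
    omega
  · intro h
    by_contra hne
    push Not at hne
    obtain ⟨f, hf⟩ := Minor.rows M (r + 1) hne
    have h1 : (M.submatrix f id).transpose.rank = r + 1 := by
      rw [Matrix.rank_transpose, hf.rank_matrix, Fintype.card_fin]
    obtain ⟨g, hg⟩ := Minor.rows (M.submatrix f id).transpose (r + 1) h1.ge
    have h2 : ((M.submatrix f id).transpose.submatrix g id) = (M.submatrix f g).transpose := rfl
    rw [h2] at hg
    have h3 := Matrix.linearIndependent_rows_iff_isUnit.1 hg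
    rw [Matrix.isUnit_iff_isUnit_det, Matrix.det_transpose, h f g] at h3
    exact not_isUnit_zero h3

end Pool.Agent.H90.HW
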